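import Pool.Agent.W448.FF.Stmts

set_option autoImplicit false

namespace Pool.Agent.W683.FF

open Finset Pool.Agent.W448.FF

theorem nn_symm {V : Type} (G : OG V) (u v : V) : nn G u v = nn G v u := by
  unfold nn OG.adj
  by_cases h1 : G.arc u v <;> by_cases h2 : G.arc v u <;> simp [h1, h2]

theorem o_add {V : Type} (G : OG V) (u v : V) : o G u v + o G v u + nn G u v = 1 := by
  have h := G.asymm u v
  unfold nn OG.adj o
  by_cases h1 : G.arc u v <;> by_cases h2 : G.arc v u
  · exact absurd h2 (h h1)
  · simp [h1, h2]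
  · simp [h1, h2]
  · simp [h1, h2]

theorem bd_eq {V : Type} (G : OG V) (v y z : V) :
    bd G v y z = o G v y * o G v z + nn G v y * nn G v z + (1 - nn G v y) * (nn G y z * nn G v z)
      + (1 - nn G v z) * (nn G y z * nn G v y) + o G y v * o G y z + o G z v * o G z y := by
  have h1 := G.asymm v y
  have h2 := G.asymm v z
  have h3 := G.asymm y z
  unfold bd Bad nn OG.adj o
  by_cases a1 : G.arc v y <;> by_cases a2 : G.arc y v <;> by_cases a3 : G.arc v z <;>
    by_cases a4 : G.arc z v <;> by_cases a5 : G.arc y z <;> by_cases a6 : G.arc z y <;>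
    simp_all

theorem idd : S_ID := by
  intro V _ G w hw
  have hin : ∀ v, ∑ u, w u * o G u v = 1 - X G w v - Hh G w v := by
    intro v
    have : ∑ u, w u * o G u v + X G w v + Hh G w v = ∑ u, w u := by
      unfold X Hh
      rw [← sum_add_distrib, ← sum_add_distrib]
      refine sum_congr rfl fun u _ => ?_
      have h := o_add G v u
      linear_combination (w u) * h
    rw [hw] at this
    linarith
  have hbv : ∀ v, bv G w v = X G w v ^ 2 + Hh G w v ^ 2 + Rr G w v +
      2 * ∑ u, w u * (o G u v * X G w u) := by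
    intro v
    have e1 : ∑ y, ∑ z, w y * w z * (o G v y * o G v z) = X G w v ^ 2 := by
      unfold X
      rw [sq, sum_mul_sum]
      exact sum_congr rfl fun y _ => sum_congr rfl fun z _ => by ring
    have e2 : ∑ y, ∑ z, w y * w z * (nn G v y * nn G v z) = Hh G w v ^ 2 := by
      unfold Hh
      rw [sq, sum_mul_sum]
      exact sum_congr rfl fun y _ => sum_congr rfl fun z _ => by ring
    have e3 : ∑ y, ∑ z, w y * w z * ((1 - nn G v z) * (nn G y z * nn G v y))
        = ∑ y, ∑ z, w y * w z * ((1 - nn G v y) * (nn G y z * nn G v z)) := by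
      rw [sum_comm]
      refine sum_congr rfl fun y _ => sum_congr rfl fun z _ => ?_
      rw [nn_symm G z y]
      ring
    have e4 : ∑ y, ∑ z, w y * w z * (o G y v * o G y z) = ∑ u, w u * (o G u v * X G w u) := by
      refine sum_congr rfl fun y _ => ?_
      unfold X
      rw [mul_sum, mul_sum]
      exact sum_congr rfl fun z _ => by ring
    have e5 : ∑ y, ∑ z, w y * w z * (o G z v * o G z y) = ∑ u, w u * (o G u v * X G w u) := by
      rw [sum_comm, ← e4]
      exact sum_congr rfl fun y _ => sum_congr rfl fun z _ => by ring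
    unfold bv
    have e6 : ∑ y, ∑ z, w y * w z * bd G v y z
        = ∑ y, ∑ z, w y * w z * (o G v y * o G v z) + ∑ y, ∑ z, w y * w z * (nn G v y * nn G v z)
        + ∑ y, ∑ z, w y * w z * ((1 - nn G v y) * (nn G y z * nn G v z))
        + ∑ y, ∑ z, w y * w z * ((1 - nn G v z) * (nn G y z * nn G v y))
        + ∑ y, ∑ z, w y * w z * (o G y v * o G y z)
        + ∑ y, ∑ z, w y * w z * (o G z v * o G z y) := by
      simp only [← sum_add_distrib]
      refine sum_congr rfl fun y _ => sum_congr rfl fun z _ => ?_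
      rw [bd_eq]
      ring
    rw [e6, e1, e2, e3, e4, e5]
    unfold Rr
    ring
  have p1 : ∀ v, bv G w v - 4 / 9 = (X G w v - 1 / 3) ^ 2 + (Hh G w v - 1 / 3) ^ 2 + Rr G w v +
      2 * ∑ u, w u * (o G u v * (X G w u - 1 / 3)) := by
    intro v
    rw [hbv v]
    have e : ∑ u, w u * (o G u v * (X G w u - 1 / 3))
        = ∑ u, w u * (o G u v * X G w u) - 1 / 3 * ∑ u, w u * o G u v := by
      rw [mul_sum, ← sum_sub_distrib]
      exact sum_congr rfl fun u _ => by ring
    rw [e, hin v]
    ring
  have p3 : ∑ v, w v * (X G w v - 1 / 3) = -(1 / 2) * ∑ v, w v * (Hh G w v - 1 / 3) := by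
    have e1 : ∑ v, w v * X G w v = ∑ v, ∑ u, w v * w u * o G v u := by
      unfold X
      refine sum_congr rfl fun v _ => ?_
      rw [mul_sum]
      exact sum_congr rfl fun u _ => by ring
    have e2 : ∑ v, w v * X G w v = ∑ v, ∑ u, w v * w u * o G u v := by
      rw [e1, sum_comm]
      exact sum_congr rfl fun v _ => sum_congr rfl fun u _ => by ring
    have e3 : ∑ v, w v * Hh G w v = ∑ v, ∑ u, w v * w u * nn G v u := by
      unfold Hh
      refine sum_congr rfl fun v _ => ?_
      rw [mul_sum]
      exact sum_congr rfl fun u _ => by ring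
    have e4 : ∑ v, w v * X G w v + ∑ v, w v * X G w v + ∑ v, w v * Hh G w v = 1 := by
      nth_rewrite 1 [e1]
      rw [e2, e3, ← sum_add_distrib, ← sum_add_distrib]
      have : ∀ v, ∑ u, w v * w u * o G v u + ∑ u, w v * w u * o G u v
          + ∑ u, w v * w u * nn G v u = w v := by
        intro v
        rw [← sum_add_distrib, ← sum_add_distrib]
        have h5 : ∑ u, w v * w u = w v := by
          rw [← mul_sum, hw, mul_one]
        rw [← h5]
        refine sum_congr rfl fun u _ => ?_
        have h := o_add G v u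
        rw [h5]
        linear_combination (w v * w u) * h
      rw [sum_congr rfl fun v _ => this v, hw]
    have e5 : ∑ v, w v * (X G w v - 1 / 3) = ∑ v, w v * X G w v - 1 / 3 := by
      have : ∑ v, w v * (X G w v - 1 / 3) = ∑ v, w v * X G w v - 1 / 3 * ∑ v, w v := by
        rw [mul_sum, ← sum_sub_distrib]
        exact sum_congr rfl fun u _ => by ring
      rw [this, hw]; ring
    have e6 : ∑ v, w v * (Hh G w v - 1 / 3) = ∑ v, w v * Hh G w v - 1 / 3 := by
      have : ∑ v, w v * (Hh G w v - 1 / 3) = ∑ v, w v * Hh G w v - 1 / 3 * ∑ v, w v := by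
        rw [mul_sum, ← sum_sub_distrib]
        exact sum_congr rfl fun u _ => by ring
      rw [this, hw]; ring
    rw [e5, e6]
    linarith
  refine ⟨p1, ?_, p3⟩
  have q1 : b G w - 4 / 9 = ∑ v, w v * (bv G w v - 4 / 9) := by
    have : ∑ v, w v * (bv G w v - 4 / 9) = ∑ v, w v * bv G w v - 4 / 9 * ∑ v, w v := by
      rw [mul_sum, ← sum_sub_distrib]
      exact sum_congr rfl fun u _ => by ring
    rw [this, hw]
    unfold b
    ring
  have q2 : ∑ v, w v * ∑ u, w u * (o G u v * (X G w u - 1 / 3))
      = ∑ u, w u * (X G w u - 1 / 3) ^ 2 + 1 / 3 * ∑ u, w u * (X G w u - 1 / 3) := by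
    have h1 : ∑ v, w v * ∑ u, w u * (o G u v * (X G w u - 1 / 3))
        = ∑ u, w u * (X G w u - 1 / 3) * X G w u := by
      simp only [mul_sum]
      rw [sum_comm]
      refine sum_congr rfl fun u _ => ?_
      rw [show w u * (X G w u - 1 / 3) * X G w u
        = (w u * (X G w u - 1 / 3)) * ∑ v, w v * o G u v from rfl, mul_sum]
      exact sum_congr rfl fun v _ => by ring
    rw [h1, mul_sum, ← sum_add_distrib]
    exact sum_congr rfl fun u _ => by ring
  rw [q1]
  have q3 : ∑ v, w v * (bv G w v - 4 / 9) = ∑ v, w v * (X G w v - 1 / 3) ^ 2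
      + ∑ v, w v * (Hh G w v - 1 / 3) ^ 2 + ∑ v, w v * Rr G w v
      + 2 * ∑ v, w v * ∑ u, w u * (o G u v * (X G w u - 1 / 3)) := by
    rw [mul_sum, ← sum_add_distrib, ← sum_add_distrib, ← sum_add_distrib]
    refine sum_congr rfl fun v _ => ?_
    rw [p1 v]
    ring
  rw [q3, q2, p3]
  ring

theorem id' : S_ID := idd

end Pool.Agent.W683.FF
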